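import Pool.Agent.Helper2.EC_C.Basic

/-!
# N1: the function `n1`
-/

set_option autoImplicit false

open MeasureTheory Filter Topology Set

namespace ECC.PkN1

open EC237

theorem PG_X : PG (fun M ν => chi (M : ℤ) * (ν : ℝ) ^ 2) := PG.chi.mul (PG.N.pow 2)

/-- the term of `D1` -/
theorem term_eq (y : ℝ) (p : ℕ × ℕ) :
    chi ((p.1:ℤ) + 1) * ((p.2:ℝ) + 1) ^ 2 * sgn2 p * QQ y p =
      (2 * (if 2 ∣ p.2 + 1 then chi ((p.1 + 1 : ℕ) : ℤ) * ((p.2 + 1 : ℕ) : ℝ) ^ 2 else 0) -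
        chi ((p.1 + 1 : ℕ) : ℤ) * ((p.2 + 1 : ℕ) : ℝ) ^ 2) * Qn y ^ ((p.1 + 1) * (p.2 + 1)) := by
  have hQ : Qn y ^ ((p.1 + 1) * (p.2 + 1)) =
      (-1) ^ ((p.1 + 1) * (p.2 + 1)) * QQ y p := by
    unfold Qn QQ
    rw [neg_pow, ← Real.exp_nat_mul]
    congr 2
    push_cast
    ring
  have hs : (-1 : ℝ) ^ ((p.1 + 1) * (p.2 + 1)) = sgn2 p * (-1) ^ (p.2 + 1) := by
    unfold sgn2
    rw [← pow_add]
    congr 1
    ring
  have hc : ((p.1 + 1 : ℕ) : ℤ) = (p.1 : ℤ) + 1 := by push_cast; rfl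
  have hn : ((p.2 + 1 : ℕ) : ℝ) = (p.2 : ℝ) + 1 := by push_cast; rfl
  rw [hQ, hs, hc, hn]
  rcases Nat.even_or_odd (p.2 + 1) with h | h
  · rw [h.neg_one_pow, if_pos h.two_dvd]
    ring
  · have h2 : ¬ 2 ∣ p.2 + 1 := by
      rw [← even_iff_two_dvd]
      exact Nat.not_even_iff_odd.mpr h
    rw [h.neg_one_pow, if_neg h2]
    ring

theorem D1_eq {y : ℝ} (hy : 0 < y) :
    D1 y = Real.pi ^ 3 * (8 * XS (Qn y ^ 2) - XS (Qn y)) := by
  have hq := abs_Qn_lt hy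
  have h1 : LS (fun M ν => 2 * (if 2 ∣ ν then chi (M : ℤ) * (ν : ℝ) ^ 2 else 0) -
      chi (M : ℤ) * (ν : ℝ) ^ 2) (Qn y) = 8 * XS (Qn y ^ 2) - XS (Qn y) := by
    rw [LS_sub ((PG.const 2).mul (PG_X.ite fun _ ν => 2 ∣ ν)) PG_X hq, LS_mul_left,
      LS_sieveN (fun M ν => chi (M : ℤ) * (ν : ℝ) ^ 2) (d := 2) (by norm_num)]
    have h2 : LS (fun M ν => chi (M : ℤ) * ((2 * ν : ℕ) : ℝ) ^ 2) (Qn y ^ 2) =
        4 * XS (Qn y ^ 2) := by
      unfold XS
      rw [← LS_mul_left]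
      exact LS_congr (fun M ν _ _ => by push_cast; ring) _
    rw [h2]
    unfold XS
    ring
  rw [← h1]
  unfold D1 LS
  congr 1
  exact tsum_congr fun p => term_eq y p

theorem D1_prod (x_ : G_X) {y : ℝ} (hy : 0 < y) :
    D1 y = -Real.pi ^ 3 * (AA (Qn y) * CC (Qn y) * DD (Qn y)) := by
  obtain ⟨h1, h2⟩ := x_ (Qn y) (abs_Qn_lt hy)
  rw [D1_eq hy]
  unfold AA CC DD
  linear_combination Real.pi ^ 3 * (8 / 108 * h2 - h1 / 54)

theorem D1_continuousOn : ContinuousOn D1 (Ioi 0) := by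
  have h : ContinuousOn (fun y => Real.pi ^ 3 * (8 * XS (Qn y ^ 2) - XS (Qn y))) (Ioi 0) := by
    intro y hy
    apply ContinuousAt.continuousWithinAt
    have h1 : ContinuousAt (fun y => XS (Qn y)) y := by
      have h2 : ContinuousAt XS (Qn y) := LS_continuousAt PG_X (abs_Qn_lt hy)
      exact ContinuousAt.comp (g := XS) h2 (Qn_deriv y).continuousAt
    have h3 : ContinuousAt (fun y => XS (Qn y ^ 2)) y := by
      have h2 : ContinuousAt XS (Qn y ^ 2) :=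
        LS_continuousAt PG_X (Qn_pow_abs hy (by norm_num : 1 ≤ 2))
      exact ContinuousAt.comp (g := XS) (f := fun y => Qn y ^ 2) h2 (Qn_pow_deriv 2 y).continuousAt
    exact continuousAt_const.mul ((continuousAt_const.mul h3).sub h1)
  exact h.congr fun y hy => D1_eq hy

theorem D1_bound {ε : ℝ} (hε : 0 < ε) : ∃ C : ℝ, 0 ≤ C ∧ ∀ y : ℝ, ε ≤ y →
    |D1 y| ≤ C * Real.exp (-(Real.pi * y)) := by
  have hr : Real.exp (-(Real.pi * ε)) < 1 :=
    Real.exp_lt_one_iff.2 (by linarith [mul_pos Real.pi_pos hε])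
  obtain ⟨C, hC, h⟩ := LS_bound PG_X hr
  refine ⟨Real.pi ^ 3 * (9 * C), by positivity, fun y hy => ?_⟩
  have hy0 : 0 < y := hε.trans_le hy
  have h1 : |Qn y| ≤ Real.exp (-(Real.pi * ε)) := by
    rw [abs_Qn]
    apply Real.exp_le_exp.2
    have := mul_le_mul_of_nonneg_left hy Real.pi_pos.le
    linarith
  have hlt := abs_Qn_lt hy0
  have h2 : |Qn y ^ 2| ≤ |Qn y| := by
    rw [abs_pow]
    have := abs_nonneg (Qn y)
    nlinarith
  have h3 : |XS (Qn y)| ≤ C * |Qn y| := h _ h1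
  have h4 : |XS (Qn y ^ 2)| ≤ C * |Qn y| :=
    (h _ (h2.trans h1)).trans (mul_le_mul_of_nonneg_left h2 hC)
  rw [D1_eq hy0, abs_mul, abs_of_pos (by positivity : 0 < Real.pi ^ 3), mul_assoc]
  refine mul_le_mul_of_nonneg_left ?_ (by positivity)
  have h5 := abs_sub (8 * XS (Qn y ^ 2)) (XS (Qn y))
  rw [abs_mul] at h5
  have h6 : |(8:ℝ)| = 8 := by norm_num
  rw [h6] at h5
  rw [← abs_Qn]
  linarith

theorem exp_int (a : ℝ) : IntegrableOn (fun t : ℝ => Real.exp (-(Real.pi * t))) (Ioi a) := by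
  have h := exp_neg_integrableOn_Ioi a Real.pi_pos
  refine h.congr_fun (fun t _ => ?_) measurableSet_Ioi
  ring_nf

theorem D1_int {ε : ℝ} (hε : 0 < ε) : IntegrableOn D1 (Ioi ε) := by
  obtain ⟨C, hC, h⟩ := D1_bound hε
  refine Integrable.mono' ((exp_int ε).const_mul C) ?_ ?_
  · exact (D1_continuousOn.mono fun x hx => hε.trans hx).aestronglyMeasurable measurableSet_Ioi
  · exact (ae_restrict_iff' measurableSet_Ioi).2 (ae_of_all _ fun t ht => h t (le_of_lt ht))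

theorem n1_deriv {y : ℝ} (hy : 0 < y) : HasDerivAt n1 (D1 y) y := by
  have hε : 0 < y / 2 := by linarith
  have hcont : ContinuousAt D1 y := D1_continuousOn.continuousAt (Ioi_mem_nhds hy)
  have hmeas : StronglyMeasurableAtFilter D1 (𝓝 y) volume :=
    D1_continuousOn.stronglyMeasurableAtFilter isOpen_Ioi y hy
  have hii : IntervalIntegrable D1 volume (y / 2) y := by
    rw [intervalIntegrable_iff_integrableOn_Ioc_of_le (by linarith)]
    exact (D1_int hε).mono_set Ioc_subset_Ioi_self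
  have h1 := intervalIntegral.integral_hasDerivAt_right hii hmeas hcont
  have h2 : n1 =ᶠ[𝓝 y] fun u => (∫ t in (y / 2)..u, D1 t) - ∫ t in Ioi (y / 2), D1 t := by
    filter_upwards [Ioi_mem_nhds (show y / 2 < y by linarith)] with u hu
    have h3 := intervalIntegral.integral_interval_add_Ioi (D1_int hε)
      (D1_int (hε.trans hu))
    unfold n1
    rw [← h3]
    ring
  exact (h1.sub_const _).congr_of_eventuallyEq h2

theorem n1_bound {ε : ℝ} (hε : 0 < ε) : ∃ C : ℝ, ∀ y : ℝ, ε ≤ y →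
    |n1 y| ≤ C * Real.exp (-(Real.pi * y)) := by
  obtain ⟨C, hC, h⟩ := D1_bound hε
  refine ⟨C / Real.pi, fun y hy => ?_⟩
  unfold n1
  rw [abs_neg, ← Real.norm_eq_abs]
  refine (norm_integral_le_of_norm_le ((exp_int y).const_mul C)
    ((ae_restrict_iff' measurableSet_Ioi).2 (ae_of_all _ fun t ht =>
      h t (hy.trans (le_of_lt ht))))).trans (le_of_eq ?_)
  rw [integral_const_mul]
  have h1 : ∫ t in Ioi y, Real.exp (-(Real.pi * t)) = Real.exp (-(Real.pi * y)) / Real.pi := by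
    have h2 := integral_exp_mul_Ioi (a := -Real.pi) (by linarith [Real.pi_pos]) y
    have h3 : (fun t : ℝ => Real.exp (-Real.pi * t)) = fun t => Real.exp (-(Real.pi * t)) := by
      funext t
      rw [neg_mul]
    rw [h3, neg_mul, neg_div_neg_eq] at h2
    exact h2
  rw [h1]
  ring

theorem n1_ (x_ : G_X) : G_N1 :=
  ⟨fun _ hy => ⟨D1_prod x_ hy, n1_deriv hy⟩, fun _ hε => n1_bound hε⟩

end ECC.PkN1
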